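import Pool.Agent.W826.PB.MF
import Pool.Agent.W925.PB.Russo
import Pool.Agent.W403.PB.Bridge
import Pool.Agent.W768.PB.Local
import Pool.Agent.W356.PB.Trans
set_option autoImplicit false

/-!
MP_c3c6c8_pr: a mean-field lower bound below `q_c` for polluted bootstrap percolation,
`phi p q ≥ 1 - q / ((1 - p) q_c)` for every `q < q_c` and every `p ∈ (0, 1 - q]`, hence
`phi^+(q) ≥ (q_c - q) / q_c`.
-/

namespace Pool.Agent.Results.MP_c3c6c8_pr.MeanField
open Pool.Agent.W826.PB Filter Topology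

/-- For every dimension `d` and threshold `r` (in particular `d ≥ 3`, `r = 2`) and `0 ≤ q < q_c`:
`phi p q ≥ 1 - q / ((1 - p) q_c)` for all `0 < p ≤ 1 - q`, `p < 1`; and every limit of `phi p q` as
`p → 0+` is at least `(q_c - q) / q_c`. -/
theorem result (d r : ℕ) (q : ℝ) (hq0 : 0 ≤ q) (hq : q < qc d r) :
    (∀ p : ℝ, 0 < p → p < 1 → p ≤ 1 - q → 1 - q / ((1 - p) * qc d r) ≤ phi d r p q) ∧
    ∀ L : ℝ, Tendsto (fun p => phi d r p q) (𝓝[Set.Ioc 0 (1 - q)] 0) (𝓝 L) →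
      (qc d r - q) / qc d r ≤ L := by
  have key : ∀ p : ℝ, 0 < p → p < 1 → p ≤ 1 - q →
      1 - q / ((1 - p) * qc d r) ≤ phi d r p q := fun p h1 h2 h3 =>
    mean_field Pool.Agent.W403.PB.main Pool.Agent.W768.PB.main Pool.Agent.W356.PB.Trans.main
      Pool.Agent.W925.PB.Russo.main d r hq0 hq h1 h2 h3
  refine ⟨key, fun L hL => ?_⟩
  have hqc : 0 < qc d r := lt_of_le_of_lt hq0 hq
  have hbdd : BddBelow {q : ℝ | 0 ≤ q ∧ q ≤ 1 ∧
      Tendsto (fun p => phi d r p q) (𝓝[Set.Ioc 0 (1 - q)] 0) (𝓝 0)} := ⟨0, fun x hx => hx.1⟩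
  have hqc1 : qc d r ≤ 1 := by
    apply csInf_le hbdd
    refine ⟨by norm_num, le_rfl, ?_⟩
    simp
  have h1q : 0 < 1 - q := by linarith
  rw [nhdsWithin_Ioc_eq_nhdsGT h1q] at hL
  have hlow : Tendsto (fun p : ℝ => 1 - q / ((1 - p) * qc d r)) (𝓝[>] 0)
      (𝓝 (1 - q / ((1 - 0) * qc d r))) := by
    have hc : ContinuousAt (fun p : ℝ => 1 - q / ((1 - p) * qc d r)) 0 := by
      apply ContinuousAt.sub continuousAt_const
      apply ContinuousAt.div continuousAt_const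
      · fun_prop
      · simpa using hqc.ne'
    exact hc.tendsto.mono_left nhdsWithin_le_nhds
  have e : (qc d r - q) / qc d r = 1 - q / ((1 - 0) * qc d r) := by
    rw [sub_zero, one_mul]
    field_simp
  rw [e]
  refine le_of_tendsto_of_tendsto hlow hL ?_
  filter_upwards [Ioo_mem_nhdsGT (lt_min one_pos h1q)] with p hp
  exact key p hp.1 (hp.2.trans_le (min_le_left _ _)) (hp.2.le.trans (min_le_right _ _))

end Pool.Agent.Results.MP_c3c6c8_pr.MeanField
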